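import Pool.Agent.H232Z.Str.Geom

/-! Degeneracy and greedy colouring of the intersection graph. -/

set_option autoImplicit false
set_option linter.unusedSectionVars false

namespace Pool.Agent.H232Z.Str

open Finset

variable {ι : Type} [Fintype ι] [DecidableEq ι]

open Classical in
/-- arcs of `S` through `p` -/
noncomputable def thru (g : ι → unitInterval → ℂ) (S : Finset ι) (p : ℂ) : Finset ι :=
  S.filter fun l => On g l p

lemma mem_thru {g : ι → unitInterval → ℂ} {S : Finset ι} {p : ℂ} {l : ι} :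
    l ∈ thru g S p ↔ l ∈ S ∧ On g l p := by
  unfold thru; simp

/-- arcs meeting at a point of multiplicity at most `D` -/
def adjS (g : ι → unitInterval → ℂ) (S : Finset ι) (D : ℕ) (i j : ι) : Prop :=
  i ≠ j ∧ ∃ p, On g i p ∧ On g j p ∧ (thru g S p).card ≤ D

theorem small_bound {g : ι → unitInterval → ℂ} (F : Fam g) (S : Finset ι) (D : ℕ) :
    (edges S (adjS g S D)).card ≤ 2 ^ D * bnd 5 * S.card := by
  classical
  have h := card_mul_le_card_mul (s := edges S (adjS g S D)) (t := S.powerset)
    (fun x U => x ∈ edges U (adjU g U)) (m := 2 ^ (S.card - D)) (n := bnd 5 * S.card) ?_ ?_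
  · rw [card_powerset] at h
    have h2 : 2 ^ S.card ≤ 2 ^ (S.card - D) * 2 ^ D := by
      rw [← pow_add]
      exact Nat.pow_le_pow_right (by norm_num) (by omega)
    have h3 : 0 < 2 ^ (S.card - D) := by positivity
    have h4 : 2 ^ (S.card - D) * (edges S (adjS g S D)).card ≤
        2 ^ (S.card - D) * (2 ^ D * bnd 5 * S.card) := by
      calc _ = (edges S (adjS g S D)).card * 2 ^ (S.card - D) := mul_comm _ _
        _ ≤ 2 ^ S.card * (bnd 5 * S.card) := h
        _ ≤ (2 ^ (S.card - D) * 2 ^ D) * (bnd 5 * S.card) := Nat.mul_le_mul_right _ h2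
        _ = _ := by ring
    exact Nat.le_of_mul_le_mul_left h4 h3
  · rintro ⟨i, j⟩ hx
    obtain ⟨hi, hj, hij, p, hip, hjp, hD⟩ := mem_edges.1 hx
    simp only at hi hj hij hip hjp
    have hiT : i ∈ thru g S p := mem_thru.2 ⟨hi, hip⟩
    have hjT : j ∈ thru g S p := mem_thru.2 ⟨hj, hjp⟩
    calc 2 ^ (S.card - D) ≤ 2 ^ (S \ thru g S p).card := by
          apply Nat.pow_le_pow_right (by norm_num)
          have := le_card_sdiff (thru g S p) S
          omega
      _ = (S \ thru g S p).powerset.card := (card_powerset _).symm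
      _ ≤ _ := by
          apply card_le_card_of_injOn (fun W => insert i (insert j W))
          · intro W hW
            rw [mem_coe, mem_powerset] at hW
            rw [mem_coe, mem_bipartiteAbove, mem_powerset, mem_edges]
            refine ⟨?_, by simp, by simp, hij, ?_⟩
            · intro x hx
              rcases mem_insert.1 hx with rfl | hx
              · exact hi
              rcases mem_insert.1 hx with rfl | hx
              · exact hj
              exact (mem_sdiff.1 (hW hx)).1
            · obtain ⟨s, hs⟩ := hip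
              obtain ⟨t, ht⟩ := hjp
              refine ⟨s, t, hs.trans ht.symm, fun l hl ho => ?_⟩
              rcases mem_insert.1 hl with h | hl
              · exact Or.inl h
              rcases mem_insert.1 hl with h | hl
              · exact Or.inr h
              exact absurd (mem_thru.2 ⟨(mem_sdiff.1 (hW hl)).1, hs ▸ ho⟩) (mem_sdiff.1 (hW hl)).2
          · intro W hW W' hW' e
            rw [mem_coe, mem_powerset] at hW hW'
            simp only at e
            ext x
            have e' : x ∈ insert i (insert j W) ↔ x ∈ insert i (insert j W') := by rw [e]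
            simp only [mem_insert] at e'
            have a1 : x ∈ W → x ≠ i ∧ x ≠ j := fun h =>
              ⟨fun h' => (mem_sdiff.1 (hW h)).2 (h' ▸ hiT),
                fun h' => (mem_sdiff.1 (hW h)).2 (h' ▸ hjT)⟩
            have a2 : x ∈ W' → x ≠ i ∧ x ≠ j := fun h =>
              ⟨fun h' => (mem_sdiff.1 (hW' h)).2 (h' ▸ hiT),
                fun h' => (mem_sdiff.1 (hW' h)).2 (h' ▸ hjT)⟩
            tauto
  · intro U hU
    rw [mem_powerset] at hU
    calc _ ≤ (edges U (adjU g U)).card := by
          apply card_le_card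
          intro x hx
          exact (mem_bipartiteBelow _).1 hx |>.2
      _ ≤ bnd 5 * U.card := pair_bound F U
      _ ≤ bnd 5 * S.card := Nat.mul_le_mul_left _ (card_le_card hU)

open Classical in
theorem exists_low {g : ι → unitInterval → ℂ} (F : Fam g) (k : ℕ)
    (hk : ∀ p, (thru g univ p).card ≤ k) (S : Finset ι) (hS : S.Nonempty) :
    ∃ i ∈ S, (S.filter fun j => j ≠ i ∧ ∃ p, On g i p ∧ On g j p).card ≤
      k + 2 * (2 ^ (2 * bnd 5) * bnd 5) := by
  have hb : 1 ≤ bnd 5 := by simp [bnd]
  generalize hbb : bnd 5 = b at hb ⊢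
  have hfin : {p : ℂ | 2 * b < (thru g S p).card}.Finite := by
    have : (⋃ x : ι × ι, {p : ℂ | x.1 ≠ x.2 ∧ On g x.1 p ∧ On g x.2 p}).Finite := by
      apply Set.finite_iUnion
      intro x
      apply Set.Subsingleton.finite
      rintro p ⟨h, h1, h2⟩ q ⟨-, h3, h4⟩
      exact F.uniq h1 h2 h3 h4 h
    refine this.subset fun p hp => ?_
    obtain ⟨i, hi, j, hj, hij⟩ := one_lt_card.1 (show 1 < (thru g S p).card by
      have hp' : 2 * b < (thru g S p).card := hp
      omega)
    exact Set.mem_iUnion.2 ⟨(i, j), hij, (mem_thru.1 hi).2, (mem_thru.1 hj).2⟩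
  set L := hfin.toFinset with hL
  have hmL : ∀ p, p ∈ L ↔ 2 * b < (thru g S p).card := by
    intro p; simp [hL]
  set Y := S.filter fun i => ∃ p ∈ L, On g i p ∧ ∃ q ∈ L, q ≠ p ∧ On g i q with hY
  set X := S.filter fun i => ¬ ∃ p ∈ L, On g i p ∧ ∃ q ∈ L, q ≠ p ∧ On g i q with hX
  have hXY : Y.card + X.card = S.card := card_filter_add_card_filter_not _
  set IY := (S ×ˢ L).filter fun x => On g x.1 x.2 ∧ ∃ q ∈ L, q ≠ x.2 ∧ On g x.1 q with hIY
  set IX := (S ×ˢ L).filter fun x => On g x.1 x.2 ∧ ¬ ∃ q ∈ L, q ≠ x.2 ∧ On g x.1 q with hIX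
  set II := (S ×ˢ L).filter fun x => On g x.1 x.2 with hII
  have h1 : IY.card ≤ b * L.card := by
    have := big_bound F S L
    rw [hbb] at this
    convert this
  have h2 : Y.card ≤ IY.card := by
    apply card_le_card_of_surjOn Prod.fst
    intro i hi
    rw [mem_coe, mem_filter] at hi
    obtain ⟨hi, p, hp, h⟩ := hi
    exact ⟨(i, p), mem_coe.2 (mem_filter.2 ⟨mem_product.2 ⟨hi, hp⟩, h⟩), rfl⟩
  have h3 : IX.card ≤ X.card := by
    apply card_le_card_of_injOn Prod.fst
    · rintro ⟨i, p⟩ hx
      rw [mem_coe, mem_filter, mem_product] at hx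
      obtain ⟨⟨hi, hp⟩, ho, hn⟩ := hx
      rw [mem_coe, mem_filter]
      refine ⟨hi, ?_⟩
      rintro ⟨p', hp', ho', q, hq, hqp, hoq⟩
      by_cases e : p' = p
      · exact hn ⟨q, hq, e ▸ hqp, hoq⟩
      · exact hn ⟨p', hp', e, ho'⟩
    · rintro ⟨i, p⟩ hx ⟨j, q⟩ hy e
      rw [mem_coe, mem_filter, mem_product] at hx hy
      simp only at e
      subst e
      have : q = p := by
        by_contra hqp
        exact hx.2.2 ⟨q, hy.1.2, hqp, hy.2.1⟩
      rw [this]
  have h4 : II.card ≤ IY.card + IX.card := by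
    refine le_trans (card_le_card ?_) (card_union_le IY IX)
    intro x hx
    rw [mem_filter] at hx
    rw [mem_union, mem_filter, mem_filter]
    by_cases h : ∃ q ∈ L, q ≠ x.2 ∧ On g x.1 q
    · exact Or.inl ⟨hx.1, hx.2, h⟩
    · exact Or.inr ⟨hx.1, hx.2, h⟩
  have h5 : 2 * b * L.card ≤ II.card := by
    rw [card_eq_sum_card_fiberwise (f := Prod.snd) (s := II) (t := L)
      (fun x hx => (mem_product.1 (mem_filter.1 hx).1).2), mul_comm]
    have := card_nsmul_le_sum L (fun p => (II.filter fun x => x.2 = p).card) (2 * b) (by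
      intro p hp
      refine ((hmL p).1 hp).le.trans ?_
      apply card_le_card_of_injOn (fun l => (l, p))
      · intro l hl
        rw [mem_coe, mem_thru] at hl
        rw [mem_coe, mem_filter, mem_filter, mem_product]
        exact ⟨⟨⟨hl.1, hp⟩, hl.2⟩, rfl⟩
      · intro y _ y' _ h
        exact (Prod.mk.inj h).1)
    simpa using this
  have h6 : S.card ≤ 2 * X.card := by nlinarith
  have hXne : X.Nonempty := by
    rw [← card_pos]
    have := card_pos.2 hS
    omega
  have h7 := small_bound F S (2 * b)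
  rw [hbb] at h7
  set E := edges S (adjS g S (2 * b)) with hE
  have h8 : ∃ i ∈ X, (E.filter fun x => x.1 = i).card ≤ 2 * (2 ^ (2 * b) * b) := by
    by_contra hcon
    push Not at hcon
    have a1 := card_nsmul_le_sum X (fun i => (E.filter fun x => x.1 = i).card)
      (2 * (2 ^ (2 * b) * b) + 1) (fun i hi => hcon i hi)
    have a2 : ∑ i ∈ X, (E.filter fun x => x.1 = i).card ≤ E.card := by
      rw [card_eq_sum_card_fiberwise (f := Prod.fst) (s := E) (t := S)
        (fun x hx => (mem_edges.1 hx).1)]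
      exact sum_le_sum_of_subset (filter_subset _ _)
    have a3 := card_pos.2 hXne
    simp only [smul_eq_mul] at a1
    generalize 2 ^ (2 * b) * b = M at *
    nlinarith
  obtain ⟨i, hiX, hi⟩ := h8
  rw [hX, mem_filter] at hiX
  obtain ⟨hiS, hiX⟩ := hiX
  refine ⟨i, hiS, ?_⟩
  have h9 : ∃ p0, ∀ p ∈ L, On g i p → p = p0 := by
    by_cases h : ∃ p ∈ L, On g i p
    · obtain ⟨p0, hp0, ho⟩ := h
      refine ⟨p0, fun p hp hop => ?_⟩
      by_contra e
      exact hiX ⟨p0, hp0, ho, p, hp, e, hop⟩
    · exact ⟨0, fun p hp hop => absurd ⟨p, hp, hop⟩ h⟩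
  obtain ⟨p0, hp0⟩ := h9
  calc _ ≤ (thru g univ p0 ∪ (E.filter fun x => x.1 = i).image Prod.snd).card := by
        apply card_le_card
        intro j hj
        rw [mem_filter] at hj
        obtain ⟨hjS, hji, p, hip, hjp⟩ := hj
        rw [mem_union]
        by_cases hp : p ∈ L
        · left
          exact mem_thru.2 ⟨mem_univ _, hp0 p hp hip ▸ hjp⟩
        · right
          refine mem_image.2 ⟨(i, j), mem_filter.2 ⟨mem_edges.2 ⟨hiS, hjS, hji.symm, p, hip, hjp, ?_⟩,
            rfl⟩, rfl⟩
          rw [hmL] at hp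
          omega
    _ ≤ (thru g univ p0).card + ((E.filter fun x => x.1 = i).image Prod.snd).card :=
        card_union_le _ _
    _ ≤ _ := Nat.add_le_add (hk p0) (card_image_le.trans hi)

theorem colouring {g : ι → unitInterval → ℂ} (F : Fam g) (k : ℕ)
    (hk : ∀ p, (thru g univ p).card ≤ k) :
    ∃ f : ι → Fin (k + (2 * (2 ^ (2 * bnd 5) * bnd 5) + 1)), ∀ i j, i ≠ j →
      (∃ p, On g i p ∧ On g j p) → f i ≠ f j := by
  classical
  have hlow := exists_low F k hk
  generalize 2 * (2 ^ (2 * bnd 5) * bnd 5) = M at hlow ⊢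
  suffices h : ∀ n, ∀ S : Finset ι, S.card = n → ∃ f : ι → Fin (k + (M + 1)), ∀ i ∈ S, ∀ j ∈ S,
      i ≠ j → (∃ p, On g i p ∧ On g j p) → f i ≠ f j by
    obtain ⟨f, hf⟩ := h _ univ rfl
    exact ⟨f, fun i j => hf i (mem_univ _) j (mem_univ _)⟩
  intro n
  induction n with
  | zero =>
    intro S hS
    rw [card_eq_zero] at hS
    exact ⟨fun _ => ⟨0, by omega⟩, by simp [hS]⟩
  | succ n ih =>
    intro S hS
    obtain ⟨i, hi, hd⟩ := hlow S (card_pos.1 (by omega))
    obtain ⟨f, hf⟩ := ih (S.erase i) (by rw [card_erase_of_mem hi]; omega)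
    set N := S.filter fun j => j ≠ i ∧ ∃ p, On g i p ∧ On g j p with hN
    have : ∃ c : Fin (k + (M + 1)), c ∉ N.image f := by
      by_contra hcon
      push Not at hcon
      have h1 : (univ : Finset (Fin (k + (M + 1)))).card ≤ (N.image f).card :=
        card_le_card fun c _ => hcon c
      have h2 := card_image_le (s := N) (f := f)
      rw [card_univ, Fintype.card_fin] at h1
      have h3 : N.card ≤ k + M := by convert hd
      omega
    obtain ⟨c, hc⟩ := this
    refine ⟨Function.update f i c, fun a ha b hb hab hp => ?_⟩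
    by_cases hai : a = i
    · subst hai
      rw [Function.update_self, Function.update_of_ne hab.symm]
      intro e
      exact hc (mem_image.2 ⟨b, mem_filter.2 ⟨hb, hab.symm, hp⟩, e.symm⟩)
    by_cases hbi : b = i
    · subst hbi
      rw [Function.update_self, Function.update_of_ne hab]
      intro e
      obtain ⟨p, h1, h2⟩ := hp
      exact hc (mem_image.2 ⟨a, mem_filter.2 ⟨ha, hab, p, h2, h1⟩, e⟩)
    rw [Function.update_of_ne hai, Function.update_of_ne hbi]
    exact hf a (mem_erase.2 ⟨hai, ha⟩) b (mem_erase.2 ⟨hbi, hb⟩) hab hp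

end Pool.Agent.H232Z.Str
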