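import Pool.Agent.H232Z.Str.Comb

/-! Cutting a Jordan curve open to an arc that keeps finitely many given points. -/

set_option autoImplicit false

namespace Pool.Agent.H232Z.Str

open Set

lemma exp_ne_of_small {x y : ℝ} (h : Circle.exp x = Circle.exp y) (h1 : -(2 * Real.pi) < x - y)
    (h2 : x - y < 2 * Real.pi) : x = y := by
  obtain ⟨m, hm⟩ := Circle.exp_eq_exp.1 h
  have hp := Real.pi_pos
  have e : x - y = m * (2 * Real.pi) := by linarith
  have a1 : (-1 : ℝ) < m := by
    by_contra hc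
    push Not at hc
    nlinarith
  have a2 : (m : ℝ) < 1 := by
    by_contra hc
    push Not at hc
    nlinarith
  have a3 : (-1 : ℤ) < m := by exact_mod_cast a1
  have a4 : m < (1 : ℤ) := by exact_mod_cast a2
  have : m = 0 := by omega
  rw [this] at hm
  simpa using hm

theorem exists_cut (C : Circle → ℂ) (hc : Continuous C) (hi : Function.Injective C) (T : Set ℂ)
    (hT : T.Finite) : ∃ g : unitInterval → ℂ, Continuous g ∧ Function.Injective g ∧
      Cl g (range C) ∧ ∀ p ∈ T, p ∈ range C → ∃ t, g t = p := by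
  classical
  have hZ : (C ⁻¹' T).Finite := hT.preimage hi.injOn
  have hp := Real.pi_gt_three
  obtain ⟨L, hL, hmax⟩ := Finset.exists_max_image
    (insert (1 : ℝ) (hZ.toFinset.image fun z : Circle => Real.pi - Complex.arg z)) id
    (Finset.insert_nonempty _ _)
  have L1 : 1 ≤ L := hmax 1 (Finset.mem_insert_self _ _)
  have L2 : L < 2 * Real.pi := by
    rcases Finset.mem_insert.1 hL with h | h
    · linarith
    · obtain ⟨z, -, rfl⟩ := Finset.mem_image.1 h
      linarith [Complex.neg_pi_lt_arg (z : ℂ)]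
  have cG : Continuous fun θ : ℝ => C (Circle.exp θ) := hc.comp Circle.exp.continuous
  refine ⟨fun t => C (Circle.exp (Real.pi - L * t)), cG.comp (by fun_prop), ?_, ⟨fun t => ⟨_, rfl⟩, ?_⟩,
    ?_⟩
  · intro s t h
    have := exp_ne_of_small (hi h) (by nlinarith [s.2.1, s.2.2, t.2.1, t.2.2])
      (by nlinarith [s.2.1, s.2.2, t.2.1, t.2.2])
    apply Subtype.ext
    nlinarith
  · intro s t
    have s0 := s.2.1
    have s1 := s.2.2
    have t0 := t.2.1
    have t1 := t.2.2
    rcases le_total s t with hst | hst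
    · refine ⟨fun τ => C (Circle.exp ((1 - τ) * (Real.pi - L * t) +
        τ * (Real.pi - L * s - 2 * Real.pi))), cG.comp (by fun_prop), by simp,
        by simp [Circle.exp_sub_two_pi], fun τ => ⟨_, rfl⟩, ?_⟩
      intro τ ρ e
      obtain ⟨x, hx, hb⟩ := seg_mem (fun t => C (Circle.exp (Real.pi - L * t))) s t ρ
      have hb' : s ≤ x ∧ x ≤ t := by
        rcases hb with hb | hb
        · exact hb
        · exact ⟨hst.trans hb.1, hb.2.trans hst⟩
      by_cases hxs : x = s
      · left; rw [e, hx, hxs]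
      by_cases hxt : x = t
      · right; rw [e, hx, hxt]
      exfalso
      have b1 : (s : ℝ) < x := lt_of_le_of_ne hb'.1 (fun h => hxs (Subtype.ext h.symm))
      have b2 : (x : ℝ) < t := lt_of_le_of_ne hb'.2 (fun h => hxt (Subtype.ext h))
      have u0 := τ.2.1
      have u1 := τ.2.2
      have k1 : 0 < L * (t - x) := by nlinarith
      have k2 : 0 < L * (x - s) := by nlinarith
      have k3 : L * (t - s) < 2 * Real.pi := by nlinarith
      have k4 : 0 ≤ τ * (2 * Real.pi - L * (t - s)) := by nlinarith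
      have k5 : 0 ≤ (1 - τ) * (2 * Real.pi - L * (t - s)) := by nlinarith
      have := exp_ne_of_small (hi (e.trans hx)) (by nlinarith) (by nlinarith)
      nlinarith
    · refine ⟨fun τ => C (Circle.exp ((1 - τ) * (Real.pi - L * t) +
        τ * (Real.pi - L * s + 2 * Real.pi))), cG.comp (by fun_prop), by simp,
        by simp [Circle.exp_add_two_pi], fun τ => ⟨_, rfl⟩, ?_⟩
      intro τ ρ e
      obtain ⟨x, hx, hb⟩ := seg_mem (fun t => C (Circle.exp (Real.pi - L * t))) s t ρ
      have hb' : t ≤ x ∧ x ≤ s := by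
        rcases hb with hb | hb
        · exact ⟨hst.trans hb.1, hb.2.trans hst⟩
        · exact hb
      by_cases hxs : x = s
      · left; rw [e, hx, hxs]
      by_cases hxt : x = t
      · right; rw [e, hx, hxt]
      exfalso
      have b1 : (x : ℝ) < s := lt_of_le_of_ne hb'.2 (fun h => hxs (Subtype.ext h))
      have b2 : (t : ℝ) < x := lt_of_le_of_ne hb'.1 (fun h => hxt (Subtype.ext h.symm))
      have u0 := τ.2.1
      have u1 := τ.2.2
      have k1 : 0 < L * (x - t) := by nlinarith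
      have k2 : 0 < L * (s - x) := by nlinarith
      have k3 : L * (s - t) < 2 * Real.pi := by nlinarith
      have k4 : 0 ≤ τ * (2 * Real.pi - L * (s - t)) := by nlinarith
      have k5 : 0 ≤ (1 - τ) * (2 * Real.pi - L * (s - t)) := by nlinarith
      have := exp_ne_of_small (hi (e.trans hx)) (by nlinarith) (by nlinarith)
      nlinarith
  · rintro p hp' ⟨z, rfl⟩
    have h1 : Real.pi - Complex.arg z ≤ L := hmax _ (Finset.mem_insert_of_mem
      (Finset.mem_image.2 ⟨z, hZ.mem_toFinset.2 hp', rfl⟩))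
    have h2 : 0 ≤ Real.pi - Complex.arg z := by linarith [Complex.arg_le_pi (z : ℂ)]
    refine ⟨⟨(Real.pi - Complex.arg z) / L, by positivity, (div_le_one (by linarith)).2 h1⟩, ?_⟩
    have : Real.pi - L * ((Real.pi - Complex.arg z) / L) = Complex.arg z := by
      field_simp
      ring
    simp only [this, Circle.exp_arg]

theorem jordan_colouring {ι : Type} [Fintype ι] (k : ℕ) (γ : ι → Circle → ℂ)
    (h1 : ∀ i, Continuous (γ i)) (h2 : ∀ i, Function.Injective (γ i))
    (h3 : ∀ i j, i ≠ j → (range (γ i) ∩ range (γ j)).Subsingleton)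
    (h4 : ∀ p : ℂ, Set.ncard {i : ι | p ∈ range (γ i)} ≤ k) :
    ∃ f : ι → Fin (k + (2 * (2 ^ (2 * bnd 5) * bnd 5) + 1)), ∀ i j, i ≠ j →
      (range (γ i) ∩ range (γ j)).Nonempty → f i ≠ f j := by
  classical
  have hT : (⋃ x : ι × ι, {p : ℂ | x.1 ≠ x.2 ∧ p ∈ range (γ x.1) ∩ range (γ x.2)}).Finite := by
    apply Set.finite_iUnion
    intro x
    apply Set.Subsingleton.finite
    rintro p ⟨h, hp⟩ q ⟨-, hq⟩
    exact h3 _ _ h hp hq
  choose g c1 c2 c3 c4 using fun i => exists_cut (γ i) (h1 i) (h2 i) _ hT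
  have F : Fam g := ⟨c1, c2, fun i j hij s t s' t' a b =>
    h3 i j hij ⟨(c3 i).1 s, a ▸ (c3 j).1 t⟩ ⟨(c3 i).1 s', b ▸ (c3 j).1 t'⟩,
    fun i j hij => sq_of_cl (c1 i) (c1 j) (c3 i) (c3 j) (h3 i j hij)⟩
  obtain ⟨f, hf⟩ := colouring F k (by
    intro p
    refine le_trans ?_ (h4 p)
    rw [← Set.ncard_coe_finset]
    apply Set.ncard_le_ncard _ (Set.toFinite _)
    intro l hl
    obtain ⟨-, t, ht⟩ := mem_thru.1 (Finset.mem_coe.1 hl)
    exact ht ▸ (c3 l).1 t)
  refine ⟨f, fun i j hij hne => hf i j hij ?_⟩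
  obtain ⟨p, hp⟩ := hne
  have hpT := Set.mem_iUnion.2 (⟨(i, j), hij, hp⟩ :
    ∃ x : ι × ι, p ∈ {p : ℂ | x.1 ≠ x.2 ∧ p ∈ range (γ x.1) ∩ range (γ x.2)})
  exact ⟨p, c4 i p hpT hp.1, c4 j p hpT hp.2⟩

end Pool.Agent.H232Z.Str
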