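import Pool.Agent.Helper770.VanKampen

/-! Increments of logarithms along arcs that can be pulled apart. -/

set_option autoImplicit false

namespace Pool.Agent.H232Z.Str

open Complex Set unitInterval Pool.Agent.Helper770.VanKampen

/-- the two curves can be made disjoint by arbitrarily small moves -/
def Sep (U W : unitInterval → ℂ) : Prop :=
  ∀ ε : ℝ, 0 < ε → ∃ α β : unitInterval → ℂ, Continuous α ∧ Continuous β ∧
    (∀ t, ‖α t - U t‖ < ε) ∧ (∀ t, ‖β t - W t‖ < ε) ∧ ∀ s t, α s ≠ β t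

/-- increment of a logarithm of `U t - z` -/
noncomputable def wn (U : unitInterval → ℂ) (z : ℂ) : ℂ :=
  inc (fun τ => U (projIcc 0 1 zero_le_one τ) - z)

lemma pj0 : projIcc (0 : ℝ) 1 zero_le_one 0 = (0 : unitInterval) := by
  simp

lemma pj1 : projIcc (0 : ℝ) 1 zero_le_one 1 = (1 : unitInterval) := by
  simp

lemma cont_pj (U : unitInterval → ℂ) (hU : Continuous U) :
    Continuous fun τ : ℝ => U (projIcc 0 1 zero_le_one τ) :=
  hU.comp continuous_projIcc

lemma exp_wn (U : unitInterval → ℂ) (hU : Continuous U) (z : ℂ) (hz : ∀ t, U t ≠ z) :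
    exp (wn U z) * (U 0 - z) = U 1 - z := by
  obtain ⟨f, hf, he⟩ := exists_log1 (fun τ => U (projIcc 0 1 zero_le_one τ) - z)
    ((cont_pj U hU).sub continuous_const) (fun τ => sub_ne_zero.2 (hz _))
  unfold wn
  rw [inc_eq _ f hf he, exp_sub, he, he, pj0, pj1, div_mul_cancel₀ _ (sub_ne_zero.2 (hz _))]

lemma wn_perturb (U U' : unitInterval → ℂ) (hU : Continuous U) (hU' : Continuous U') (z z' : ℂ)
    (h : ∀ t, ‖(U' t - z') - (U t - z)‖ < ‖U t - z‖) :
    wn U' z' = wn U z + log ((U' 1 - z') / (U 1 - z)) - log ((U' 0 - z') / (U 0 - z)) := by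
  have h0 : ∀ t, U t - z ≠ 0 := fun t h' => by
    have := h t
    rw [h', norm_zero] at this
    exact absurd this (not_lt.2 (norm_nonneg _))
  have hsl : ∀ t, (U' t - z') / (U t - z) ∈ slitPlane := by
    intro t
    have : (U' t - z') / (U t - z) = 1 + ((U' t - z') - (U t - z)) / (U t - z) := by
      field_simp [h0 t]
      ring
    rw [this]
    apply mem_slitPlane_of_norm_lt_one
    rw [norm_div, div_lt_one (norm_pos_iff.2 (h0 t))]
    exact h t
  obtain ⟨f, hf, he⟩ := exists_log1 (fun τ => U (projIcc 0 1 zero_le_one τ) - z)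
    ((cont_pj U hU).sub continuous_const) (fun τ => h0 _)
  have hq : Continuous fun τ : ℝ => log ((U' (projIcc 0 1 zero_le_one τ) - z') /
      (U (projIcc 0 1 zero_le_one τ) - z)) :=
    Continuous.clog (((cont_pj U' hU').sub continuous_const).div
      ((cont_pj U hU).sub continuous_const) (fun τ => h0 _)) (fun τ => hsl _)
  unfold wn
  rw [inc_eq _ f hf he, inc_eq _ _ (hf.add hq) (fun τ => by
    rw [Pi.add_apply, exp_add, he, exp_log (slitPlane_ne_zero (hsl _)), mul_div_cancel₀ _ (h0 _)])]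
  simp only [Pi.add_apply, pj0, pj1]
  ring

lemma exists_gap (U : unitInterval → ℂ) (hU : Continuous U) (z : ℂ) (hz : ∀ t, U t ≠ z) :
    ∃ δ : ℝ, 0 < δ ∧ ∀ t, δ ≤ ‖U t - z‖ := by
  obtain ⟨t, -, ht⟩ := isCompact_univ.exists_isMinOn (s := (univ : Set unitInterval))
    univ_nonempty ((hU.sub (continuous_const (y := z))).norm).continuousOn
  exact ⟨‖U t - z‖, norm_pos_iff.2 (sub_ne_zero.2 (hz t)), fun s => ht (mem_univ s)⟩

lemma square (U W : unitInterval → ℂ) (hU : Continuous U) (hW : Continuous W) (hs : Sep U W)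
    (a0 : ∀ t, U t ≠ W 0) (a1 : ∀ t, U t ≠ W 1) (b0 : ∀ t, W t ≠ U 0) (b1 : ∀ t, W t ≠ U 1) :
    wn U (W 0) - wn U (W 1) + wn W (U 1) - wn W (U 0) = 0 := by
  obtain ⟨d1, p1, q1⟩ := exists_gap U hU _ a0
  obtain ⟨d2, p2, q2⟩ := exists_gap U hU _ a1
  obtain ⟨d3, p3, q3⟩ := exists_gap W hW _ b0
  obtain ⟨d4, p4, q4⟩ := exists_gap W hW _ b1
  obtain ⟨α, β, hα, hβ, c1, c2, hd⟩ := hs (min (min d1 d2) (min d3 d4) / 2) (by positivity)
  have m1 : min (min d1 d2) (min d3 d4) ≤ d1 := (min_le_left _ _).trans (min_le_left _ _)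
  have m2 : min (min d1 d2) (min d3 d4) ≤ d2 := (min_le_left _ _).trans (min_le_right _ _)
  have m3 : min (min d1 d2) (min d3 d4) ≤ d3 := (min_le_right _ _).trans (min_le_left _ _)
  have m4 : min (min d1 d2) (min d3 d4) ≤ d4 := (min_le_right _ _).trans (min_le_right _ _)
  have tri : ∀ x x' y y' : ℂ, ‖(x' - y') - (x - y)‖ ≤ ‖x' - x‖ + ‖y' - y‖ := by
    intro x x' y y'
    have : (x' - y') - (x - y) = (x' - x) - (y' - y) := by ring
    rw [this]; exact norm_sub_le _ _
  have e1 := wn_perturb U α hU hα (W 0) (β 0) (fun t => by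
    have := tri (U t) (α t) (W 0) (β 0); linarith [c1 t, c2 0, q1 t])
  have e2 := wn_perturb U α hU hα (W 1) (β 1) (fun t => by
    have := tri (U t) (α t) (W 1) (β 1); linarith [c1 t, c2 1, q2 t])
  have e3 := wn_perturb W β hW hβ (U 0) (α 0) (fun t => by
    have := tri (W t) (β t) (U 0) (α 0); linarith [c2 t, c1 0, q3 t])
  have e4 := wn_perturb W β hW hβ (U 1) (α 1) (fun t => by
    have := tri (W t) (β t) (U 1) (α 1); linarith [c2 t, c1 1, q4 t])
  have sq := inc_square (fun τ => α (projIcc 0 1 zero_le_one τ))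
    (fun τ => β (projIcc 0 1 zero_le_one τ)) (cont_pj α hα) (cont_pj β hβ) (fun s t => hd _ _)
  simp only [pj0, pj1] at sq
  have sq' : wn α (β 0) - wn α (β 1) + wn β (α 1) - wn β (α 0) = 0 := sq
  have flip : ∀ x x' y y' : ℂ, (y' - x') / (y - x) = (x' - y') / (x - y) := by
    intro x x' y y'
    rw [← neg_sub x' y', ← neg_sub x y, neg_div_neg_eq]
  rw [flip (U 0) (α 0) (W 1) (β 1), flip (U 0) (α 0) (W 0) (β 0)] at e3
  rw [flip (U 1) (α 1) (W 1) (β 1), flip (U 1) (α 1) (W 0) (β 0)] at e4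
  linear_combination sq' - e1 + e2 + e3 - e4

/-- the piece of `g` from parameter `s` to parameter `t` -/
noncomputable def seg (g : unitInterval → ℂ) (s t : unitInterval) : unitInterval → ℂ :=
  fun τ => g (Icc.convexComb s t τ)

@[simp] lemma seg_zero (g : unitInterval → ℂ) (s t : unitInterval) : seg g s t 0 = g s := by
  simp [seg]

@[simp] lemma seg_one (g : unitInterval → ℂ) (s t : unitInterval) : seg g s t 1 = g t := by
  simp [seg]

lemma cont_seg (g : unitInterval → ℂ) (hg : Continuous g) (s t : unitInterval) :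
    Continuous (seg g s t) := hg.comp (Icc.continuous_convexComb s t)

lemma Sep.seg {g h : unitInterval → ℂ} (H : Sep g h) (s t s' t' : unitInterval) :
    Sep (seg g s t) (seg h s' t') := by
  intro ε hε
  obtain ⟨α, β, hα, hβ, c1, c2, hd⟩ := H ε hε
  exact ⟨Str.seg α s t, Str.seg β s' t', cont_seg α hα _ _, cont_seg β hβ _ _,
    fun τ => c1 _, fun τ => c2 _, fun a b => hd _ _⟩

lemma sep_of_disjoint (U W : unitInterval → ℂ) (hU : Continuous U) (hW : Continuous W)
    (h : ∀ s t, U s ≠ W t) : Sep U W :=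
  fun ε hε => ⟨U, W, hU, hW, fun t => by simpa using hε, fun t => by simpa using hε, h⟩

lemma seg_mem (g : unitInterval → ℂ) (s t τ : unitInterval) :
    ∃ x, seg g s t τ = g x ∧ ((s ≤ x ∧ x ≤ t) ∨ (t ≤ x ∧ x ≤ s)) := by
  refine ⟨Icc.convexComb s t τ, rfl, ?_⟩
  rcases le_total s t with h | h
  · exact Or.inl ⟨Icc.le_convexComb h τ, Icc.convexComb_le h τ⟩
  · right
    have e : Icc.convexComb s t τ = Icc.convexComb t s (unitInterval.symm τ) :=
      (Icc.convexComb_symm t s τ).symm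
    rw [e]
    exact ⟨Icc.le_convexComb h _, Icc.convexComb_le h _⟩

/-- crossing number zero for all pieces of `g` and `h` whose ends avoid the other piece -/
def Sq (g h : unitInterval → ℂ) : Prop :=
  ∀ s t s' t', (∀ τ, seg g s t τ ≠ h s') → (∀ τ, seg g s t τ ≠ h t') →
    (∀ τ, seg h s' t' τ ≠ g s) → (∀ τ, seg h s' t' τ ≠ g t) →
    wn (seg g s t) (h s') - wn (seg g s t) (h t') + wn (seg h s' t') (g t) -
      wn (seg h s' t') (g s) = 0

lemma Sep.sq {g h : unitInterval → ℂ} (hg : Continuous g) (hh : Continuous h) (H : Sep g h) :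
    Sq g h := by
  intro s t s' t' a0 a1 b0 b1
  have := square _ _ (cont_seg g hg s t) (cont_seg h hh s' t') (H.seg s t s' t')
    (by rwa [seg_zero]) (by rwa [seg_one]) (by rwa [seg_zero]) (by rwa [seg_one])
  simpa only [seg_zero, seg_one] using this

/-- every piece of `g` can be closed up inside `R` by an arc avoiding its interior -/
def Cl (g : unitInterval → ℂ) (R : Set ℂ) : Prop :=
  (∀ t, g t ∈ R) ∧ ∀ s t, ∃ V : unitInterval → ℂ, Continuous V ∧ V 0 = g t ∧ V 1 = g s ∧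
    (∀ τ, V τ ∈ R) ∧ ∀ τ ρ, V τ = seg g s t ρ → V τ = g s ∨ V τ = g t

lemma sq_of_cl {g h : unitInterval → ℂ} (hg : Continuous g) (hh : Continuous h) {R R' : Set ℂ}
    (c1 : Cl g R) (c2 : Cl h R') (hR : (R ∩ R').Subsingleton) : Sq g h := by
  intro s t s' t' a0 a1 b0 b1
  have hU := cont_seg g hg s t
  have hW := cont_seg h hh s' t'
  have sqd : ∀ U W : unitInterval → ℂ, Continuous U → Continuous W → (∀ a b, U a ≠ W b) →
      wn U (W 0) - wn U (W 1) + wn W (U 1) - wn W (U 0) = 0 := fun U W hU hW H =>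
    square U W hU hW (sep_of_disjoint U W hU hW H) (fun _ => H _ _) (fun _ => H _ _)
      (fun _ => (H _ _).symm) (fun _ => (H _ _).symm)
  by_cases hd : ∀ a b, seg g s t a ≠ seg h s' t' b
  · simpa only [seg_zero, seg_one] using sqd _ _ hU hW hd
  push Not at hd
  obtain ⟨a, b, hab⟩ := hd
  obtain ⟨U, cU, U0, U1, UR, Uav⟩ := c1.2 s t
  obtain ⟨W, cW, W0, W1, WR, Wav⟩ := c2.2 s' t'
  have hx : seg g s t a ∈ R ∩ R' := ⟨c1.1 _, hab ▸ c2.1 _⟩
  have nU : ∀ τ, U τ ∉ R' := by
    intro τ hτ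
    have e : U τ = seg g s t a := hR ⟨UR τ, hτ⟩ hx
    rcases Uav τ a e with e' | e'
    · exact b0 b (by rw [← hab, ← e, e'])
    · exact b1 b (by rw [← hab, ← e, e'])
  have nW : ∀ τ, W τ ∉ R := by
    intro τ hτ
    have e : W τ = seg g s t a := hR ⟨hτ, WR τ⟩ hx
    rcases Wav τ b (e.trans hab) with e' | e'
    · exact a0 a (by rw [← e, e'])
    · exact a1 a (by rw [← e, e'])
  have q1 := sqd U (seg h s' t') cU hW (fun x y e => nU x (e ▸ c2.1 _))
  have q2 := sqd (seg g s t) W hU cW (fun x y e => nW y (e ▸ c1.1 _))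
  have q3 := sqd U W cU cW (fun x y e => nU x (e ▸ WR _))
  simp only [seg_zero, seg_one, U0, U1, W0, W1] at q1 q2 q3
  linear_combination -q1 - q2 - q3

end Pool.Agent.H232Z.Str
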