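import Pool.Agent.H232Z.Str.Good
import Pool.Agent.H232Z.Str.Wind

/-! Two planar-type edge bounds for a family of non-crossing arcs. -/

set_option autoImplicit false
set_option linter.unusedSectionVars false

namespace Pool.Agent.H232Z.Str

open Finset Complex

variable {ι : Type} [Fintype ι] [DecidableEq ι]

/-- a finite family of arcs, any two meeting at most once and not crossing -/
structure Fam (g : ι → unitInterval → ℂ) : Prop where
  cont : ∀ i, Continuous (g i)
  inj : ∀ i, Function.Injective (g i)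
  lin : ∀ i j, i ≠ j → ∀ s t s' t', g i s = g j t → g i s' = g j t' → g i s = g i s'
  sq : ∀ i j, i ≠ j → Sq (g i) (g j)

/-- the point `p` lies on the arc `i` -/
def On (g : ι → unitInterval → ℂ) (i : ι) (p : ℂ) : Prop := ∃ t, g i t = p

/-- consecutive points of `L` along some arc -/
def adjL (g : ι → unitInterval → ℂ) (L : Finset ℂ) (p q : ℂ) : Prop :=
  p ≠ q ∧ ∃ i s t, g i s = p ∧ g i t = q ∧
    ∀ x, ((s ≤ x ∧ x ≤ t) ∨ (t ≤ x ∧ x ≤ s)) → g i x ∈ L → x = s ∨ x = t

theorem good_adjL {g : ι → unitInterval → ℂ} (F : Fam g) (L : Finset ℂ) :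
    Good L (adjL g L) := by
  classical
  choose I0 s0 t0 h1 h2 h3 using fun a b (h : adjL g L a b) => h.2
  have avoid : ∀ a b (h : adjL g L a b) z, z ∈ L → z ≠ a → z ≠ b → ∀ τ,
      seg (g (I0 a b h)) (s0 a b h) (t0 a b h) τ ≠ z := by
    intro a b h z hz hza hzb τ e
    obtain ⟨x, hx, hb⟩ := seg_mem (g (I0 a b h)) (s0 a b h) (t0 a b h) τ
    rw [hx] at e
    rcases h3 a b h x hb (e ▸ hz) with h' | h'
    · exact hza (by rw [← e, h', h1])
    · exact hzb (by rw [← e, h', h2])
  refine ⟨id, fun a b z => if h : adjL g L a b then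
    wn (seg (g (I0 a b h)) (s0 a b h) (t0 a b h)) z else 0, fun a _ b _ h => h, ?_, ?_⟩
  · intro a _ b _ z hz h hza hzb
    simp only [dif_pos h, id]
    have := exp_wn _ (cont_seg _ (F.cont (I0 a b h)) (s0 a b h) (t0 a b h)) z
      (avoid a b h z hz hza hzb)
    rwa [seg_zero, seg_one, h1, h2] at this
  · intro a ha b hb c hc d hd h h' hac had hbc hbd
    simp only [dif_pos h, dif_pos h']
    have hU := cont_seg _ (F.cont (I0 a b h)) (s0 a b h) (t0 a b h)
    have hW := cont_seg _ (F.cont (I0 c d h')) (s0 c d h') (t0 c d h')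
    by_cases hij : I0 a b h = I0 c d h'
    swap
    · have := F.sq _ _ hij (s0 a b h) (t0 a b h) (s0 c d h') (t0 c d h')
        (by rw [h1]; exact avoid a b h c hc hac.symm hbc.symm)
        (by rw [h2]; exact avoid a b h d hd had.symm hbd.symm)
        (by rw [h1]; exact avoid c d h' a ha hac had)
        (by rw [h2]; exact avoid c d h' b hb hbc hbd)
      simpa only [h1, h2] using this
    have hsep : Sep (seg (g (I0 a b h)) (s0 a b h) (t0 a b h))
        (seg (g (I0 c d h')) (s0 c d h') (t0 c d h')) := by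
      · apply sep_of_disjoint _ _ hU hW
        intro σ τ e
        obtain ⟨x, hx, bx⟩ := seg_mem (g (I0 a b h)) (s0 a b h) (t0 a b h) σ
        obtain ⟨y, hy, bY⟩ := seg_mem (g (I0 c d h')) (s0 c d h') (t0 c d h') τ
        rw [hx, hy, ← hij] at e
        have exy := F.inj _ e
        subst exy
        have k1 := h1 a b h
        have k2 := h2 a b h
        have k3 := h3 a b h
        have k4 := h1 c d h'
        have k5 := h2 c d h'
        have k6 := h3 c d h'
        rw [← hij] at k4 k5 k6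
        generalize s0 a b h = s at *
        generalize t0 a b h = t at *
        generalize s0 c d h' = s' at *
        generalize t0 c d h' = t' at *
        have n1 : ¬ ((s ≤ s' ∧ s' ≤ t) ∨ (t ≤ s' ∧ s' ≤ s)) := fun hh => by
          rcases k3 s' hh (k4 ▸ hc) with e | e
          · exact hac (by rw [← k1, ← k4, e])
          · exact hbc (by rw [← k2, ← k4, e])
        have n2 : ¬ ((s ≤ t' ∧ t' ≤ t) ∨ (t ≤ t' ∧ t' ≤ s)) := fun hh => by
          rcases k3 t' hh (k5 ▸ hd) with e | e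
          · exact had (by rw [← k1, ← k5, e])
          · exact hbd (by rw [← k2, ← k5, e])
        have n3 : ¬ ((s' ≤ s ∧ s ≤ t') ∨ (t' ≤ s ∧ s ≤ s')) := fun hh => by
          rcases k6 s hh (by rw [k1]; exact ha) with e | e
          · exact hac (by rw [← k1, ← k4, e])
          · exact had (by rw [← k1, ← k5, e])
        have n4 : ¬ ((s' ≤ t ∧ t ≤ t') ∨ (t' ≤ t ∧ t ≤ s')) := fun hh => by
          rcases k6 t hh (by rw [k2]; exact hb) with e | e
          · exact hbc (by rw [← k2, ← k4, e])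
          · exact hbd (by rw [← k2, ← k5, e])
        simp only [← Subtype.coe_le_coe] at n1 n2 n3 n4 bx bY
        generalize (s : ℝ) = s at *
        generalize (t : ℝ) = t at *
        generalize (s' : ℝ) = s' at *
        generalize (t' : ℝ) = t' at *
        generalize (x : ℝ) = x at *
        grind
    have := square _ _ hU hW hsep
      (by rw [seg_zero, h1]; exact avoid a b h c hc hac.symm hbc.symm)
      (by rw [seg_one, h2]; exact avoid a b h d hd had.symm hbd.symm)
      (by rw [seg_zero, h1]; exact avoid c d h' a ha hac had)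
      (by rw [seg_one, h2]; exact avoid c d h' b hb hbc hbd)
    simpa only [seg_zero, seg_one, h1, h2] using this

lemma exists_next {g : ι → unitInterval → ℂ} (F : Fam g) (L : Finset ℂ) (i : ι) (p q : ℂ)
    (hp : On g i p) (hq : On g i q) (hqL : q ∈ L) (hqp : q ≠ p) :
    ∃ q' ∈ L, On g i q' ∧ adjL g L p q' := by
  classical
  obtain ⟨s, rfl⟩ := hp
  obtain ⟨t, rfl⟩ := hq
  have hfin : ((g i) ⁻¹' (L : Set ℂ)).Finite :=
    L.finite_toSet.preimage (F.inj i).injOn
  let T : Finset unitInterval := hfin.toFinset.erase s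
  have hT : ∀ x, x ∈ T ↔ x ≠ s ∧ g i x ∈ L := by
    intro x; simp [T]
  obtain ⟨y, hy, hmin⟩ := exists_min_image T (fun x => |(x : ℝ) - s|)
    ⟨t, (hT t).2 ⟨fun h => hqp (by rw [h]), hqL⟩⟩
  obtain ⟨hys, hyL⟩ := (hT y).1 hy
  refine ⟨g i y, hyL, ⟨y, rfl⟩, fun h => hys (F.inj i h).symm, i, s, y, rfl, rfl, ?_⟩
  intro x hx hxL
  by_cases hxs : x = s
  · exact Or.inl hxs
  right
  have := hmin x ((hT x).2 ⟨hxs, hxL⟩)
  apply Subtype.ext
  simp only [← Subtype.coe_le_coe] at hx
  rcases hx with ⟨a1, a2⟩ | ⟨a1, a2⟩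
  · rw [abs_of_nonneg (by linarith), abs_of_nonneg (by linarith)] at this
    linarith
  · rw [abs_of_nonpos (by linarith), abs_of_nonpos (by linarith)] at this
    linarith

lemma Fam.uniq {g : ι → unitInterval → ℂ} (F : Fam g) {i j : ι} {p q : ℂ} (h1 : On g i p)
    (h2 : On g j p) (h3 : On g i q) (h4 : On g j q) (hij : i ≠ j) : p = q := by
  obtain ⟨s, rfl⟩ := h1
  obtain ⟨t, ht⟩ := h2
  obtain ⟨s', rfl⟩ := h3
  obtain ⟨t', ht'⟩ := h4
  exact F.lin i j hij s t s' t' ht.symm ht'.symm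

open Classical in
theorem big_bound {g : ι → unitInterval → ℂ} (F : Fam g) (S : Finset ι) (L : Finset ℂ) :
    ((S ×ˢ L).filter fun x => On g x.1 x.2 ∧ ∃ q ∈ L, q ≠ x.2 ∧ On g x.1 q).card ≤
      bnd 5 * L.card := by
  refine le_trans ?_ (good_edges L (adjL g L) ?_ (fun a h => h.1 rfl) (good_adjL F L))
  · apply card_le_card_of_forall_subsingleton
      (fun (x : ι × ℂ) (y : ℂ × ℂ) => y.1 = x.2 ∧ On g x.1 y.1 ∧ On g x.1 y.2 ∧ y.1 ≠ y.2)
    · rintro ⟨i, p⟩ hx
      rw [mem_filter, mem_product] at hx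
      obtain ⟨⟨-, hp⟩, hon, q, hq, hqp, hq'⟩ := hx
      obtain ⟨q', h1, h2, h3⟩ := exists_next F L i p q hon hq' hq hqp
      exact ⟨(p, q'), mem_edges.2 ⟨hp, h1, h3⟩, rfl, hon, h2, h3.1⟩
    · rintro ⟨p, q⟩ - ⟨i, a⟩ ⟨-, h1, h2, h3, h4⟩ ⟨j, b⟩ ⟨-, k1, k2, k3, -⟩
      simp only at h1 h2 h3 h4 k1 k2 k3
      have : i = j := by
        by_contra hij
        exact h4 (F.uniq h2 k2 h3 k3 hij)
      rw [this, ← h1, ← k1]
  · rintro a b ⟨hab, i, s, t, h1, h2, h3⟩
    exact ⟨hab.symm, i, t, s, h2, h1, fun x hx hL => (h3 x hx.symm hL).symm⟩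

/-- arcs meeting at a point that lies on no third arc of `U` -/
def adjU (g : ι → unitInterval → ℂ) (U : Finset ι) (i j : ι) : Prop :=
  i ≠ j ∧ ∃ s t, g i s = g j t ∧ ∀ l ∈ U, On g l (g i s) → l = i ∨ l = j

lemma exists_base {g : ι → unitInterval → ℂ} (F : Fam g) (i : ι) :
    ∃ b, ∀ j, j ≠ i → ∀ t, g j t ≠ g i b := by
  have hfin : (⋃ j : ι, {b | j ≠ i ∧ ∃ t, g j t = g i b}).Finite := by
    apply Set.finite_iUnion
    intro j
    apply Set.Subsingleton.finite
    rintro b ⟨hj, t, ht⟩ b' ⟨-, t', ht'⟩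
    exact F.inj i (F.lin i j hj.symm b t b' t' ht.symm ht'.symm)
  have : Infinite unitInterval := Set.Icc.infinite zero_lt_one
  obtain ⟨b, hb⟩ := hfin.exists_notMem
  refine ⟨b, fun j hj t ht => hb ?_⟩
  exact Set.mem_iUnion.2 ⟨j, hj, t, ht⟩

theorem good_adjU {g : ι → unitInterval → ℂ} (F : Fam g) (U : Finset ι) :
    Good U (adjU g U) := by
  classical
  choose bp hb using exists_base F
  choose s0 t0 h1 h2 using fun a b (h : adjU g U a b) => h.2
  refine ⟨fun i => g i (bp i), fun a b z => if h : adjU g U a b then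
    wn (seg (g a) (bp a) (s0 a b h)) (g z (bp z)) + wn (seg (g b) (t0 a b h) (bp b)) (g z (bp z))
    else 0, fun a _ b _ h => hb b a h _, ?_, ?_⟩
  · intro a _ b _ z hz h hza hzb
    simp only [dif_pos h]
    have e1 := exp_wn _ (cont_seg _ (F.cont a) (bp a) (s0 a b h)) (g z (bp z))
      (fun τ => hb z a hza.symm _)
    have e2 := exp_wn _ (cont_seg _ (F.cont b) (t0 a b h) (bp b)) (g z (bp z))
      (fun τ => hb z b hzb.symm _)
    rw [seg_zero, seg_one] at e1 e2
    rw [exp_add, ← e2, ← h1 a b h, ← e1]; ring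
  · intro a ha b hb' c hc d hd h h' hac had hbc hbd
    simp only [dif_pos h, dif_pos h']
    have x1 : ∀ τ, g c τ ≠ g a (s0 a b h) := fun τ e => by
      rcases h2 a b h c hc ⟨τ, e⟩ with e | e
      · exact hac e.symm
      · exact hbc e.symm
    have x2 : ∀ τ, g d τ ≠ g a (s0 a b h) := fun τ e => by
      rcases h2 a b h d hd ⟨τ, e⟩ with e | e
      · exact had e.symm
      · exact hbd e.symm
    have y1 : ∀ τ, g a τ ≠ g c (s0 c d h') := fun τ e => by
      rcases h2 c d h' a ha ⟨τ, e⟩ with e | e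
      · exact hac e
      · exact had e
    have y2 : ∀ τ, g b τ ≠ g c (s0 c d h') := fun τ e => by
      rcases h2 c d h' b hb' ⟨τ, e⟩ with e | e
      · exact hbc e
      · exact hbd e
    have ex := h1 a b h
    have ey := h1 c d h'
    have q1 := F.sq a c hac (bp a) (s0 a b h) (bp c) (s0 c d h')
      (fun τ => hb c a hac _) (fun τ => y1 _) (fun τ => hb a c hac.symm _) (fun τ => x1 _)
    have q2 := F.sq a d had (bp a) (s0 a b h) (t0 c d h') (bp d)
      (fun τ => by rw [← ey]; exact y1 _) (fun τ => hb d a had _)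
      (fun τ => hb a d had.symm _) (fun τ => x2 _)
    have q3 := F.sq b c hbc (t0 a b h) (bp b) (bp c) (s0 c d h')
      (fun τ => hb c b hbc _) (fun τ => y2 _) (fun τ => by rw [← ex]; exact x1 _)
      (fun τ => hb b c hbc.symm _)
    have q4 := F.sq b d hbd (t0 a b h) (bp b) (t0 c d h') (bp d)
      (fun τ => by rw [← ey]; exact y2 _) (fun τ => hb d b hbd _)
      (fun τ => by rw [← ex]; exact x2 _) (fun τ => hb b d hbd.symm _)
    simp only [← ex, ← ey] at q1 q2 q3 q4
    linear_combination q1 + q2 + q3 + q4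

theorem pair_bound {g : ι → unitInterval → ℂ} (F : Fam g) (U : Finset ι) :
    (edges U (adjU g U)).card ≤ bnd 5 * U.card := by
  refine good_edges U (adjU g U) ?_ (fun a h => h.1 rfl) (good_adjU F U)
  rintro a b ⟨hab, s, t, h1, h2⟩
  exact ⟨hab.symm, t, s, h1.symm, fun l hl ho => (h2 l hl (h1 ▸ ho)).symm⟩

end Pool.Agent.H232Z.Str
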