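import Pool.Agent.H232Z.Str.Minor

/-! Algebraic shadow of a plane drawing (van Kampen data): closed under subgraphs and contraction,
impossible for the complete graph on five vertices; hence a linear edge bound. -/

set_option autoImplicit false
set_option linter.unusedSectionVars false

namespace Pool.Agent.H232Z.Str

open Finset Complex

variable {V : Type} [DecidableEq V]

/-- `θ a b z` is the change of a logarithm of `x - p z` while `x` runs along the edge from `a` to
`b`; around a pair of independent edges the changes cancel. -/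
def Good (S : Finset V) (adj : V → V → Prop) : Prop :=
  ∃ (p : V → ℂ) (θ : V → V → V → ℂ), (∀ a ∈ S, ∀ b ∈ S, a ≠ b → p a ≠ p b) ∧
    (∀ a ∈ S, ∀ b ∈ S, ∀ z ∈ S, adj a b → z ≠ a → z ≠ b →
      exp (θ a b z) * (p a - p z) = p b - p z) ∧
    (∀ a ∈ S, ∀ b ∈ S, ∀ c ∈ S, ∀ d ∈ S, adj a b → adj c d → a ≠ c → a ≠ d → b ≠ c → b ≠ d →
      θ a b c - θ a b d + θ c d b - θ c d a = 0)

theorem good_closed : Closed (Good (V := V)) := by
  classical
  constructor
  · rintro S S' adj adj' hS ha ⟨p, θ, h1, h2, h3⟩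
    exact ⟨p, θ, fun a ha' b hb' => h1 a (hS ha') b (hS hb'),
      fun a ha' b hb' z hz h => h2 a (hS ha') b (hS hb') z (hS hz) (ha a ha' b hb' h),
      fun a ha' b hb' c hc' d hd' h h' => h3 a (hS ha') b (hS hb') c (hS hc') d (hS hd')
        (ha a ha' b hb' h) (ha c hc' d hd' h')⟩
  · rintro S adj u v hu hv huv huv1 huv2 ⟨p, θ, h1, h2, h3⟩
    let θ' : V → V → V → ℂ := fun a b z =>
      if adj a b then θ a b z else if a = u then θ u v z + θ v b z else θ a v z + θ v u z
    have hcases : ∀ a b, contr adj u v a b →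
        (adj a b ∧ ∀ z, θ' a b z = θ a b z) ∨
        (a = u ∧ adj v b ∧ ∀ z, θ' a b z = θ u v z + θ v b z) ∨
        (b = u ∧ adj a v ∧ ∀ z, θ' a b z = θ a v z + θ v u z) := by
      rintro a b ⟨hab, h⟩
      by_cases h0 : adj a b
      · exact Or.inl ⟨h0, fun z => by simp only [θ', if_pos h0]⟩
      rcases h with h | h | h
      · exact absurd h h0
      · exact Or.inr (Or.inl ⟨h.1, h.2, fun z => by simp only [θ', if_neg h0, if_pos h.1]⟩)
      · have : a ≠ u := fun h' => hab (h'.trans h.1.symm)
        exact Or.inr (Or.inr ⟨h.1, h.2, fun z => by simp only [θ', if_neg h0, if_neg this]⟩)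
    refine ⟨p, θ', fun a ha b hb => h1 a (mem_of_mem_erase ha) b (mem_of_mem_erase hb), ?_, ?_⟩
    · intro a ha b hb z hz hab hza hzb
      obtain ⟨hav, ha⟩ := mem_erase.1 ha
      obtain ⟨hbv, hb⟩ := mem_erase.1 hb
      obtain ⟨hzv, hz⟩ := mem_erase.1 hz
      rcases hcases a b hab with ⟨h, e⟩ | ⟨rfl, h, e⟩ | ⟨rfl, h, e⟩
      · rw [e]; exact h2 a ha b hb z hz h hza hzb
      · rw [e, exp_add, ← h2 v hv b hb z hz h hzv hzb, ← h2 a ha v hv z hz huv1 hza hzv]; ring
      · rw [e, exp_add, ← h2 v hv b hb z hz huv2 hzv hzb, ← h2 a ha v hv z hz h hza hzv]; ring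
    · intro a ha b hb c hc d hd hab hcd hac had hbc hbd
      obtain ⟨hav, ha⟩ := mem_erase.1 ha
      obtain ⟨hbv, hb⟩ := mem_erase.1 hb
      obtain ⟨hcv, hc⟩ := mem_erase.1 hc
      obtain ⟨hdv, hd⟩ := mem_erase.1 hd
      rcases hcases a b hab with ⟨h, e⟩ | ⟨rfl, h, e⟩ | ⟨rfl, h, e⟩ <;>
        rcases hcases c d hcd with ⟨h', e'⟩ | ⟨hcu, h', e'⟩ | ⟨hdu, h', e'⟩
      · rw [e, e, e', e']; exact h3 a ha b hb c hc d hd h h' hac had hbc hbd
      · subst hcu
        rw [e, e, e', e']
        linear_combination h3 a ha b hb c hc v hv h huv1 hac hav hbc hbv +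
          h3 a ha b hb v hv d hd h h' hav had hbv hbd
      · subst hdu
        rw [e, e, e', e']
        linear_combination h3 a ha b hb c hc v hv h h' hac hav hbc hbv +
          h3 a ha b hb v hv d hd h huv2 hav had hbv hbd
      · rw [e, e, e', e']
        linear_combination h3 a ha v hv c hc d hd huv1 h' hac had hcv.symm hdv.symm +
          h3 v hv b hb c hc d hd h h' hcv.symm hdv.symm hbc hbd
      · exact absurd hcu.symm hac
      · exact absurd hdu.symm had
      · rw [e, e, e', e']
        linear_combination h3 a ha v hv c hc d hd h h' hac had hcv.symm hdv.symm +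
          h3 v hv b hb c hc d hd huv2 h' hcv.symm hdv.symm hbc hbd
      · exact absurd hcu.symm hbc
      · exact absurd hdu.symm hbd

lemma k5_aux (p : Fin 5 → ℂ) (θ : Fin 5 → Fin 5 → Fin 5 → ℂ) (h1 : ∀ a b, a ≠ b → p a ≠ p b)
    (h2 : ∀ a b z, a ≠ b → z ≠ a → z ≠ b → exp (θ a b z) * (p a - p z) = p b - p z)
    (h3 : ∀ a b c d, a ≠ b → c ≠ d → a ≠ c → a ≠ d → b ≠ c → b ≠ d →
      θ a b c - θ a b d + θ c d b - θ c d a = 0) : False := by
  let L : Fin 5 → Fin 5 → ℂ := fun a z =>
    if a < z then log (p a - p z) else log (p z - p a) + Real.pi * I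
  have hL : ∀ a z, a ≠ z → exp (L a z) = p a - p z := by
    intro a z h
    simp only [L]
    split_ifs
    · exact exp_log (sub_ne_zero.2 (h1 _ _ h))
    · rw [exp_add, exp_pi_mul_I, exp_log (sub_ne_zero.2 (h1 _ _ h.symm))]; ring
  let s : Fin 5 → Fin 5 → ℤ := fun x y => if x < y then -1 else 1
  have hs : ∀ x y, x ≠ y → L x y - L y x = (s x y : ℂ) * (Real.pi * I) := by
    intro x y h
    simp only [L, s]
    rcases lt_or_gt_of_ne h with h' | h'
    · rw [if_pos h', if_neg (not_lt.2 h'.le), if_pos h']; push_cast; ring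
    · rw [if_neg (not_lt.2 h'.le), if_pos h', if_neg (not_lt.2 h'.le)]; push_cast; ring
  have hn : ∀ a b z, ∃ n : ℤ, a ≠ b → z ≠ a → z ≠ b →
      θ a b z = L b z - L a z + n * (2 * Real.pi * I) := by
    intro a b z
    by_cases h : a ≠ b ∧ z ≠ a ∧ z ≠ b
    · obtain ⟨hab, hza, hzb⟩ := h
      have : exp (θ a b z) = exp (L b z - L a z) := by
        rw [exp_sub, hL b z hzb.symm, hL a z hza.symm, ← h2 a b z hab hza hzb,
          mul_div_assoc, div_self (sub_ne_zero.2 (h1 _ _ hza.symm)), mul_one]
      obtain ⟨n, hn⟩ := exp_eq_exp_iff_exists_int.1 this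
      exact ⟨n, fun _ _ _ => hn⟩
    · exact ⟨0, fun a1 a2 a3 => absurd ⟨a1, a2, a3⟩ h⟩
  choose n hn using hn
  have hpiI : (Real.pi * I : ℂ) ≠ 0 := by simp [Real.pi_ne_zero]
  have key : ∀ a b c d, a ≠ b → c ≠ d → a ≠ c → a ≠ d → b ≠ c → b ≠ d →
      s b c + s c a + s d b + s a d + 2 * (n a b c - n a b d + n c d b - n c d a) = 0 := by
    intro a b c d hab hcd hac had hbc hbd
    have e := h3 a b c d hab hcd hac had hbc hbd
    rw [hn a b c hab hac.symm hbc.symm, hn a b d hab had.symm hbd.symm, hn c d b hcd hbc hbd,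
      hn c d a hcd hac had] at e
    have e1 : ((s b c : ℂ) + s c a + s d b + s a d +
        2 * (n a b c - n a b d + n c d b - n c d a)) * (Real.pi * I) = 0 := by
      linear_combination e - hs b c hbc - hs c a hac.symm - hs d b hbd.symm - hs a d had
    have e2 := (mul_eq_zero.1 e1).resolve_right hpiI
    exact_mod_cast e2
  have k1 := key 0 1 2 3 (by decide) (by decide) (by decide) (by decide) (by decide) (by decide)
  have k2 := key 0 1 2 4 (by decide) (by decide) (by decide) (by decide) (by decide) (by decide)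
  have k3 := key 0 1 3 4 (by decide) (by decide) (by decide) (by decide) (by decide) (by decide)
  have k4 := key 0 2 1 3 (by decide) (by decide) (by decide) (by decide) (by decide) (by decide)
  have k5 := key 0 2 1 4 (by decide) (by decide) (by decide) (by decide) (by decide) (by decide)
  have k6 := key 0 2 3 4 (by decide) (by decide) (by decide) (by decide) (by decide) (by decide)
  have k7 := key 0 3 1 2 (by decide) (by decide) (by decide) (by decide) (by decide) (by decide)
  have k8 := key 0 3 1 4 (by decide) (by decide) (by decide) (by decide) (by decide) (by decide)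
  have k9 := key 0 3 2 4 (by decide) (by decide) (by decide) (by decide) (by decide) (by decide)
  have k10 := key 0 4 1 2 (by decide) (by decide) (by decide) (by decide) (by decide) (by decide)
  have k11 := key 0 4 1 3 (by decide) (by decide) (by decide) (by decide) (by decide) (by decide)
  have k12 := key 0 4 2 3 (by decide) (by decide) (by decide) (by decide) (by decide) (by decide)
  have k13 := key 1 2 3 4 (by decide) (by decide) (by decide) (by decide) (by decide) (by decide)
  have k14 := key 1 3 2 4 (by decide) (by decide) (by decide) (by decide) (by decide) (by decide)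
  have k15 := key 1 4 2 3 (by decide) (by decide) (by decide) (by decide) (by decide) (by decide)
  have s1 : ∀ x y : Fin 5, x < y → s x y = -1 := fun x y h => if_pos h
  have s2 : ∀ x y : Fin 5, y < x → s x y = 1 := fun x y h => if_neg (not_lt.2 h.le)
  simp (disch := decide) only [s1, s2] at k1 k2 k3 k4 k5 k6 k7 k8 k9 k10 k11 k12 k13 k14 k15
  omega

theorem good_noK5 (S : Finset V) (adj : V → V → Prop) (h : Good S adj) (K : Finset V)
    (hK : K ⊆ S) (hc : K.card = 5) : ¬ (∀ a ∈ K, ∀ b ∈ K, a ≠ b → adj a b) := by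
  intro hcl
  obtain ⟨p, θ, h1, h2, h3⟩ := h
  let e : Fin 5 → V := fun i => (K.equivFinOfCardEq hc).symm i
  have he : ∀ i, e i ∈ K := fun i => ((K.equivFinOfCardEq hc).symm i).2
  have hi : ∀ i j, i ≠ j → e i ≠ e j := fun i j h h' =>
    h ((K.equivFinOfCardEq hc).symm.injective (Subtype.ext h'))
  exact k5_aux (fun i => p (e i)) (fun a b z => θ (e a) (e b) (e z))
    (fun a b h => h1 _ (hK (he a)) _ (hK (he b)) (hi a b h))
    (fun a b z hab hza hzb => h2 _ (hK (he a)) _ (hK (he b)) _ (hK (he z))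
      (hcl _ (he a) _ (he b) (hi _ _ hab)) (hi _ _ hza) (hi _ _ hzb))
    (fun a b c d hab hcd hac had hbc hbd => h3 _ (hK (he a)) _ (hK (he b)) _ (hK (he c)) _
      (hK (he d)) (hcl _ (he a) _ (he b) (hi _ _ hab)) (hcl _ (he c) _ (he d) (hi _ _ hcd))
      (hi _ _ hac) (hi _ _ had) (hi _ _ hbc) (hi _ _ hbd))

theorem good_edges (S : Finset V) (adj : V → V → Prop) (hs : ∀ a b, adj a b → adj b a)
    (hi : ∀ a, ¬ adj a a) (h : Good S adj) : (edges S adj).card ≤ bnd 5 * S.card :=
  edge_bound 5 Good good_closed good_noK5 S adj hs hi h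

end Pool.Agent.H232Z.Str
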