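import Mathlib

/-! Linear edge bound for classes of finite graphs closed under subgraphs and edge contraction
that avoid a clique (the classical argument of Mader). -/

set_option autoImplicit false
set_option linter.unusedSectionVars false

namespace Pool.Agent.H232Z.Str

open Finset

variable {V : Type} [DecidableEq V]

open Classical in
/-- ordered adjacent pairs inside `S` -/
noncomputable def edges (S : Finset V) (adj : V → V → Prop) : Finset (V × V) :=
  (S ×ˢ S).filter fun x => adj x.1 x.2

lemma mem_edges {S : Finset V} {adj : V → V → Prop} {x : V × V} :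
    x ∈ edges S adj ↔ x.1 ∈ S ∧ x.2 ∈ S ∧ adj x.1 x.2 := by
  unfold edges
  simp [and_assoc]

/-- contraction of the edge `uv` onto `u` -/
def contr (adj : V → V → Prop) (u v : V) (a b : V) : Prop :=
  a ≠ b ∧ (adj a b ∨ (a = u ∧ adj v b) ∨ (b = u ∧ adj a v))

/-- classes closed under subgraphs and contractions -/
structure Closed (P : Finset V → (V → V → Prop) → Prop) : Prop where
  sub : ∀ S S' adj adj', S' ⊆ S → (∀ a ∈ S', ∀ b ∈ S', adj' a b → adj a b) → P S adj → P S' adj'
  con : ∀ S adj u v, u ∈ S → v ∈ S → u ≠ v → adj u v → adj v u → P S adj →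
    P (S.erase v) (contr adj u v)

/-- the constant in the edge bound -/
def bnd : ℕ → ℕ
  | 0 => 0
  | r + 1 => 2 * (bnd r + 1)

open Classical in
lemma contr_card (S : Finset V) (adj : V → V → Prop) (hs : ∀ a b, adj a b → adj b a)
    (hi : ∀ a, ¬ adj a a) (u v : V) (hu : u ∈ S) (huv : u ≠ v) :
    (edges S adj).card ≤ (edges (S.erase v) (contr adj u v)).card +
      2 * ((S.filter fun w => adj u w ∧ adj v w).card + 1) := by
  set C := S.filter fun w => adj u w ∧ adj v w with hC
  set B : Finset (V × V) := (insert u C).image (fun w => (v, w)) ∪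
    (insert u C).image (fun w => (w, v)) with hB
  have hBc : B.card ≤ 2 * (C.card + 1) := by
    have h1 := card_image_le (s := insert u C) (f := fun w => (v, w))
    have h2 := card_image_le (s := insert u C) (f := fun w => (w, v))
    have h3 := card_insert_le u C
    have h4 := card_union_le ((insert u C).image (fun w => (v, w)))
      ((insert u C).image (fun w => (w, v)))
    rw [hB]
    omega
  have hnB : ∀ x : V × V, x ∉ B → (x.1 = v → x.2 ≠ u ∧ x.2 ∉ C) ∧ (x.2 = v → x.1 ≠ u ∧ x.1 ∉ C) := by
    rintro ⟨a, b⟩ hx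
    simp only [hB, mem_union, mem_image, mem_insert, not_or, not_exists, not_and,
      Prod.mk.injEq] at hx
    refine ⟨fun h => ⟨fun h' => ?_, fun h' => ?_⟩, fun h => ⟨fun h' => ?_, fun h' => ?_⟩⟩
    · exact hx.1 b (Or.inl h') h.symm rfl
    · exact hx.1 b (Or.inr h') h.symm rfl
    · exact hx.2 a (Or.inl h') rfl h.symm
    · exact hx.2 a (Or.inr h') rfl h.symm
  let r : V → V := fun x => if x = v then u else x
  have hmain : (edges S adj \ B).card ≤ (edges (S.erase v) (contr adj u v)).card := by
    apply card_le_card_of_injOn (fun x => (r x.1, r x.2))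
    · rintro ⟨a, b⟩ hx
      rw [mem_coe, mem_sdiff, mem_edges] at hx
      obtain ⟨⟨ha, hb, hab⟩, hx⟩ := hx
      obtain ⟨h1, h2⟩ := hnB _ hx
      simp only at ha hb hab h1 h2
      rw [mem_coe, mem_edges]
      simp only [r]
      by_cases hav : a = v
      · have hbv : b ≠ v := fun h => hi v (by rw [hav, h] at hab; exact hab)
        rw [if_pos hav, if_neg hbv]
        refine ⟨mem_erase.2 ⟨huv, hu⟩, mem_erase.2 ⟨hbv, hb⟩, (h1 hav).1.symm, ?_⟩
        exact Or.inr (Or.inl ⟨rfl, hav ▸ hab⟩)
      · by_cases hbv : b = v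
        · rw [if_neg hav, if_pos hbv]
          refine ⟨mem_erase.2 ⟨hav, ha⟩, mem_erase.2 ⟨huv, hu⟩, (h2 hbv).1, ?_⟩
          exact Or.inr (Or.inr ⟨rfl, hbv ▸ hab⟩)
        · rw [if_neg hav, if_neg hbv]
          refine ⟨mem_erase.2 ⟨hav, ha⟩, mem_erase.2 ⟨hbv, hb⟩, fun h => hi a (h ▸ hab), ?_⟩
          exact Or.inl hab
    · rintro ⟨a, b⟩ hx ⟨c, d⟩ hy hxy
      rw [mem_coe, mem_sdiff, mem_edges] at hx hy
      obtain ⟨⟨ha, hb, hab⟩, hx⟩ := hx
      obtain ⟨⟨hc, hd, hcd⟩, hy⟩ := hy
      obtain ⟨h1, h2⟩ := hnB _ hx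
      obtain ⟨h3, h4⟩ := hnB _ hy
      simp only [hC, mem_filter, not_and] at ha hb hab hc hd hcd h1 h2 h3 h4
      simp only [r, Prod.mk.injEq] at hxy
      obtain ⟨e1, e2⟩ := hxy
      have iv : ¬ adj v v := hi v
      have s1 := hs a b hab
      have s2 := hs c d hcd
      clear hx hy hnB hBc hB hC
      grind
  have := le_card_sdiff B (edges S adj)
  omega

open Classical in
theorem edge_bound (r : ℕ) : ∀ P : Finset V → (V → V → Prop) → Prop, Closed P →
    (∀ S adj, P S adj → ∀ K : Finset V, K ⊆ S → K.card = r →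
      ¬ (∀ a ∈ K, ∀ b ∈ K, a ≠ b → adj a b)) →
    ∀ (S : Finset V) (adj : V → V → Prop), (∀ a b, adj a b → adj b a) → (∀ a, ¬ adj a a) →
      P S adj → (edges S adj).card ≤ bnd r * S.card := by
  induction r with
  | zero =>
    intro P _ hK S adj _ _ hP
    exact absurd (by simp) (hK S adj hP ∅ (empty_subset _) rfl)
  | succ r ih =>
    intro P hP hK
    let ap : (V → V → Prop) → V → V → V → Prop := fun adj z a b =>
      a ≠ b ∧ (a = z ∨ b = z ∨ adj a b)
    let P' : Finset V → (V → V → Prop) → Prop := fun S adj =>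
      ∃ z, z ∉ S ∧ P (insert z S) (ap adj z)
    have hP' : Closed P' := by
      constructor
      · rintro S S' adj adj' hS ha ⟨z, hz, h⟩
        refine ⟨z, fun h' => hz (hS h'), hP.sub _ _ _ _ (insert_subset_insert _ hS) ?_ h⟩
        rintro a ha' b hb' ⟨hab, h⟩
        refine ⟨hab, ?_⟩
        by_cases haz : a = z
        · exact Or.inl haz
        by_cases hbz : b = z
        · exact Or.inr (Or.inl hbz)
        exact Or.inr (Or.inr (ha a ((mem_insert.1 ha').resolve_left haz) b
          ((mem_insert.1 hb').resolve_left hbz) ((h.resolve_left haz).resolve_left hbz)))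
      · rintro S adj u v hu hv huv h1 h2 ⟨z, hz, h⟩
        have h3 := hP.con _ _ u v (mem_insert_of_mem hu) (mem_insert_of_mem hv) huv
          ⟨huv, Or.inr (Or.inr h1)⟩ ⟨huv.symm, Or.inr (Or.inr h2)⟩ h
        have hzv : z ≠ v := fun h' => hz (h' ▸ hv)
        refine ⟨z, fun h' => hz (mem_of_mem_erase h'), hP.sub _ _ _ _ ?_ ?_ h3⟩
        · intro x hx
          rcases mem_insert.1 hx with rfl | hx
          · exact mem_erase.2 ⟨hzv, mem_insert_self _ _⟩
          · exact mem_erase.2 ⟨(mem_erase.1 hx).1, mem_insert_of_mem (mem_erase.1 hx).2⟩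
        · rintro a ha b hb ⟨hab, h4⟩
          have hav : a ≠ v := by
            rcases mem_insert.1 ha with rfl | ha
            · exact hzv
            · exact (mem_erase.1 ha).1
          have hbv : b ≠ v := by
            rcases mem_insert.1 hb with rfl | hb
            · exact hzv
            · exact (mem_erase.1 hb).1
          refine ⟨hab, ?_⟩
          rcases h4 with h4 | h4 | ⟨-, h4 | h4 | h4⟩
          · exact Or.inl ⟨hab, Or.inl h4⟩
          · exact Or.inl ⟨hab, Or.inr (Or.inl h4)⟩
          · exact Or.inl ⟨hab, Or.inr (Or.inr h4)⟩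
          · exact Or.inr (Or.inl ⟨h4.1, hbv.symm, Or.inr (Or.inr h4.2)⟩)
          · exact Or.inr (Or.inr ⟨h4.1, hav, Or.inr (Or.inr h4.2)⟩)
    have hK' : ∀ S adj, P' S adj → ∀ K : Finset V, K ⊆ S → K.card = r →
        ¬ (∀ a ∈ K, ∀ b ∈ K, a ≠ b → adj a b) := by
      rintro S adj ⟨z, hz, h⟩ K hKS hKc hcl
      refine hK _ _ h (insert z K) (insert_subset_insert _ hKS)
        (by rw [card_insert_of_notMem (fun h' => hz (hKS h')), hKc]) ?_
      intro a ha b hb hab
      refine ⟨hab, ?_⟩
      rcases mem_insert.1 ha with ha | ha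
      · exact Or.inl ha
      rcases mem_insert.1 hb with hb | hb
      · exact Or.inr (Or.inl hb)
      exact Or.inr (Or.inr (hcl a ha b hb hab))
    have ih' := ih P' hP' hK'
    intro S
    induction hn : S.card using Nat.strong_induction_on generalizing S with
    | _ n ihn =>
    intro adj hs hi hS
    by_cases hall : ∀ u ∈ S, ∀ v ∈ S, adj u v →
        bnd r + 1 ≤ (S.filter fun w => adj u w ∧ adj v w).card
    · rcases (edges S adj).eq_empty_or_nonempty with he | ⟨⟨u, v⟩, he⟩
      · rw [he]; simp
      exfalso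
      rw [mem_edges] at he
      obtain ⟨hu, hv, huv⟩ := he
      simp only at hu hv huv
      set N := S.filter fun w => adj u w with hN
      have hPN : P' N adj := by
        refine ⟨u, fun h => hi u (mem_filter.1 h).2, hP.sub _ _ _ _ ?_ ?_ hS⟩
        · intro x hx
          rcases mem_insert.1 hx with rfl | hx
          · exact hu
          · exact (mem_filter.1 hx).1
        · rintro a ha b hb ⟨hab, h | h | h⟩
          · subst h
            exact (mem_filter.1 ((mem_insert.1 hb).resolve_left hab.symm)).2
          · subst h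
            exact hs _ _ (mem_filter.1 ((mem_insert.1 ha).resolve_left hab)).2
          · exact h
      have h1 := ih' N adj hs hi hPN
      have h2 : (bnd r + 1) * N.card ≤ (edges N adj).card := by
        rw [card_eq_sum_card_fiberwise (f := Prod.fst) (s := edges N adj) (t := N)
          (fun x hx => (mem_edges.1 hx).1), mul_comm]
        have := card_nsmul_le_sum N (fun w => ((edges N adj).filter fun x => x.1 = w).card)
          (bnd r + 1) (by
            intro w hw
            refine (hall u hu w (mem_filter.1 hw).1 (mem_filter.1 hw).2).trans ?_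
            apply card_le_card_of_injOn (fun y => (w, y))
            · intro y hy
              rw [mem_coe, mem_filter] at hy
              rw [mem_coe, mem_filter, mem_edges]
              exact ⟨⟨hw, mem_filter.2 ⟨hy.1, hy.2.1⟩, hy.2.2⟩, rfl⟩
            · intro y _ y' _ h
              exact (Prod.mk.inj h).2)
        simpa using this
      have h3 : 0 < N.card := card_pos.2 ⟨v, mem_filter.2 ⟨hv, huv⟩⟩
      nlinarith
    · push Not at hall
      obtain ⟨u, hu, v, hv, huv, hlt⟩ := hall
      have hne : u ≠ v := fun h => hi u (h ▸ huv)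
      have h1 := contr_card S adj hs hi u v hu hne
      have hc : (S.erase v).card + 1 = n := by rw [← hn]; exact card_erase_add_one hv
      have h2 := ihn (S.erase v).card (by omega) (S.erase v) rfl (contr adj u v)
        (by
          rintro a b ⟨hab, h | h | h⟩
          · exact ⟨hab.symm, Or.inl (hs _ _ h)⟩
          · exact ⟨hab.symm, Or.inr (Or.inr ⟨h.1, hs _ _ h.2⟩)⟩
          · exact ⟨hab.symm, Or.inr (Or.inl ⟨h.1, hs _ _ h.2⟩)⟩)
        (fun a h => h.1 rfl) (hP.con S adj u v hu hv hne huv (hs _ _ huv) hS)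
      rw [← hc]
      simp only [bnd] at h2 ⊢
      nlinarith

end Pool.Agent.H232Z.Str
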